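import Mathlib

/-!
# Crossed homomorphisms into the fraction field of a UFD with invariant units (module MA-11)

`X` finite acts on the UFD `S` fixing all units, and on `K = Frac S`; `δ : X → K`, `δ g ≠ 0`,
`δ (g h) = δ g * b g (δ h)`. CLAIM: `δ g = l g * β / b g β` with a homomorphism `l : X → Sˣ`. PROOF. Choose `0 ≠ D` in `S` with
`s g := D δ g` in `S` for all `g` (`IsLocalization.exist_integer_multiples_of_finset` or so). From `b h (δ g) = δ (h g) / δ h` we get
`s h * a h (s g) = a h D * s (h g)` in `S` for all `g, h`. Let `G0` be a gcd of the finite family `s g`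
(`UniqueFactorizationMonoid.toNormalizedGCDMonoid` after choosing a `NormalizationMonoid`, `Finset.gcd`; or argue with any
element having the gcd property). Taking gcds over `g` for fixed `h`: `s h * a h G0` is associated to `a h D * G0` (ring
automorphisms preserve gcds, `g ↦ h g` is a bijection). So there is a unit `l h` of `S` with
`s h * a h G0 = l h * a h D * G0`, that is `δ h * b h (β) = l h * β` with `β = G0 / D`. `l` is a homomorphism since the units are
fixed: `δ (g h) b (g h) β = δ g * b g (δ h * b h β) = δ g * b g (l h * β) = l h * l g * β`, and `β ≠ 0` (`G0 ≠ 0` since the `s g` are nonzero).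
-/

namespace Pool.Agent.Helper24.MA

private theorem crossed_gcd {S X : Type} [CommRing S] [IsDomain S] [UniqueFactorizationMonoid S]
    [Group X] [Finite X] (a : X →* (S ≃+* S)) (D : S) (s : X → S)
    (hs : ∀ h g, s h * a h (s g) = a h D * s (h * g)) :
    ∃ G0 : S, (∀ g, G0 ∣ s g) ∧ ∀ h, Associated (a h D * G0) (s h * a h G0) := by
  classical
  have := Fintype.ofFinite X
  let _ : StrongNormalizationMonoid S := UniqueFactorizationMonoid.strongNormalizationMonoid
  let _ : StrongNormalizedGCDMonoid S := UniqueFactorizationMonoid.toStrongNormalizedGCDMonoid S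
  refine ⟨Finset.univ.gcd s, fun g => Finset.gcd_dvd (Finset.mem_univ g), fun h => ?_⟩
  have h1 : Finset.univ.gcd (fun g => s h * a h (s g)) =
      normalize (s h) * Finset.univ.gcd (fun g => a h (s g)) := Finset.gcd_mul_left
  have h2 : Finset.univ.gcd (fun g => a h D * s (h * g)) =
      normalize (a h D) * Finset.univ.gcd (fun g => s (h * g)) := Finset.gcd_mul_left
  have h3 : Associated (Finset.univ.gcd (fun g => s (h * g))) (Finset.univ.gcd s) := by
    refine associated_of_dvd_dvd ?_ ?_
    · refine Finset.dvd_gcd fun g _ => ?_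
      have := Finset.gcd_dvd (f := fun g => s (h * g)) (Finset.mem_univ (h⁻¹ * g))
      simpa using this
    · exact Finset.dvd_gcd fun g _ => Finset.gcd_dvd (Finset.mem_univ (h * g))
  have h4 : Associated (Finset.univ.gcd (fun g => a h (s g))) (a h (Finset.univ.gcd s)) := by
    refine associated_of_dvd_dvd ?_ ?_
    · have h5 : (a h).symm (Finset.univ.gcd (fun g => a h (s g))) ∣ Finset.univ.gcd s := by
        refine Finset.dvd_gcd fun g _ => ?_
        have h6 := Finset.gcd_dvd (f := fun g => a h (s g)) (Finset.mem_univ g)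
        have h7 := map_dvd (a h).symm h6
        simpa using h7
      have h8 := map_dvd (a h) h5
      simpa using h8
    · exact Finset.dvd_gcd fun g _ => map_dvd (a h) (Finset.gcd_dvd (Finset.mem_univ g))
  have h9 : normalize (s h) * Finset.univ.gcd (fun g => a h (s g)) =
      normalize (a h D) * Finset.univ.gcd (fun g => s (h * g)) := by
    rw [← h1, ← h2]
    exact congrArg _ (funext fun g => hs h g)
  have h10 : Associated (a h D * Finset.univ.gcd s)
      (normalize (a h D) * Finset.univ.gcd (fun g => s (h * g))) :=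
    (associated_normalize _).mul_mul h3.symm
  have h11 : Associated (normalize (s h) * Finset.univ.gcd (fun g => a h (s g)))
      (s h * a h (Finset.univ.gcd s)) := (normalize_associated _).mul_mul h4
  rw [← h9] at h10
  exact h10.trans h11

theorem crossed {S K X : Type} [CommRing S] [IsDomain S] [UniqueFactorizationMonoid S]
    [Field K] [Algebra S K] [IsFractionRing S K] [Group X] [Finite X] (a : X →* (S ≃+* S))
    (b : X →* (K ≃+* K)) (hab : ∀ g s, b g (algebraMap S K s) = algebraMap S K (a g s))
    (hu : ∀ (g : X) (u : Sˣ), a g (u : S) = u) (δ : X → K) (h0 : ∀ g, δ g ≠ 0)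
    (hδ : ∀ g h, δ (g * h) = δ g * b g (δ h)) :
    ∃ (l : X →* Sˣ) (β : K), β ≠ 0 ∧
      ∀ g, δ g * b g β = algebraMap S K ((l g : Sˣ) : S) * β := by
  classical
  have hinj : Function.Injective (algebraMap S K) := IsFractionRing.injective S K
  obtain ⟨D, hD⟩ := IsLocalization.exist_integer_multiples_of_finite (nonZeroDivisors S) δ
  choose s hs using hD
  have hD0 : (D : S) ≠ 0 := nonZeroDivisors.ne_zero D.2
  have hDK : algebraMap S K (D : S) ≠ 0 := fun h => hD0 (hinj (by rw [h, map_zero]))
  have hs' : ∀ g, algebraMap S K (s g) = algebraMap S K (D : S) * δ g := fun g => by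
    rw [hs g, Algebra.smul_def]
  have haD0 : ∀ h, a h (D : S) ≠ 0 := fun h => by
    rw [Ne, EmbeddingLike.map_eq_zero_iff]; exact hD0
  have haDK : ∀ h, algebraMap S K (a h (D : S)) ≠ 0 := fun h h1 =>
    haD0 h (hinj (by rw [h1, map_zero]))
  have key : ∀ h g, s h * a h (s g) = a h (D : S) * s (h * g) := by
    intro h g
    apply hinj
    rw [map_mul, map_mul, ← hab, hs', hs', hs', map_mul, hab, hδ]
    ring
  obtain ⟨G0, hG, hA⟩ := crossed_gcd a (D : S) s key
  have hs0 : ∀ g, s g ≠ 0 := by
    intro g h
    have := hs' g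
    rw [h, map_zero] at this
    rcases mul_eq_zero.mp this.symm with h1 | h1
    · exact hDK h1
    · exact h0 g h1
  have hG0 : G0 ≠ 0 := fun h => hs0 1 (zero_dvd_iff.mp (h ▸ hG 1))
  have hGK : algebraMap S K G0 ≠ 0 := fun h => hG0 (hinj (by rw [h, map_zero]))
  choose l hl using hA
  set β : K := algebraMap S K G0 / algebraMap S K (D : S) with hβ
  have hβ0 : β ≠ 0 := div_ne_zero hGK hDK
  have hlβ : ∀ g, δ g * b g β = algebraMap S K ((l g : Sˣ) : S) * β := by
    intro g
    have h1 := congrArg (algebraMap S K) (hl g)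
    rw [map_mul, map_mul, map_mul, hs'] at h1
    rw [hβ, map_div₀, hab, hab]
    field_simp
    have h2 : algebraMap S K (D : S) * δ g * algebraMap S K (a g G0) =
        algebraMap S K (a g (D : S)) * algebraMap S K G0 * algebraMap S K ((l g : Sˣ) : S) := h1.symm
    linear_combination h2
  have hmul : ∀ g h, l (g * h) = l g * l h := by
    intro g h
    have h1 := hlβ (g * h)
    have h2 : δ (g * h) * b (g * h) β =
        algebraMap S K ((l h : Sˣ) : S) * (algebraMap S K ((l g : Sˣ) : S) * β) := by
      rw [hδ, map_mul b]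
      have h3 : b g (δ h) * (b g * b h) β = b g (δ h * b h β) := by
        rw [map_mul]; rfl
      rw [mul_assoc, h3, hlβ h, map_mul, hab, hu, ← hlβ g]
      ring
    rw [h1] at h2
    have h4 : algebraMap S K ((l (g * h) : Sˣ) : S) =
        algebraMap S K (((l g * l h : Sˣ)) : S) := by
      have : algebraMap S K ((l (g * h) : Sˣ) : S) * β =
          algebraMap S K (((l g * l h : Sˣ)) : S) * β := by
        rw [h2, Units.val_mul, map_mul]; ring
      exact mul_right_cancel₀ hβ0 this
    exact Units.ext (hinj h4)
  exact ⟨MonoidHom.mk' l hmul, β, hβ0, hlβ⟩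

end Pool.Agent.Helper24.MA
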