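import Pool.Agent.Helper24.MA.Defs
import Pool.Agent.Helper24.MA.Op.SpPow
import Pool.Agent.Helper24.MA.Cross.Crossed

/-!
# The linear character given by the generic line (module MA-12)

`X` a finite group with a representation `σ` on `H` over `k`, `E` elementary abelian with a representation `τ` on `H`,
`c : X → Aut E` with `σ g τ x = τ (c g x) σ g`, and `gr p τ = 1`. CLAIM: there is a homomorphism `l : X → kˣ` with `l g = a`
whenever `c g = 1` and `σ g` is the scalar `a`. PROOF. `R = MvPolynomial E k`, `K = Kf k E`. `X` acts on `R` by the `k`-algebra automorphisms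
`a g : X_x ↦ X_(c g x)` (`MvPolynomial.renameEquiv`) and on `K` by the induced automorphisms `b g`
(`IsFractionRing.ringEquivOfRingEquiv` or `IsFractionRing.algEquivOfAlgEquiv`). Let
`T g : K ⊗ H → K ⊗ H` be `TensorProduct.map (b g) (σ g)` (over `k`): additive, `T g (z • w) = b g z • T g w`, `T (g h) = T g T h`, `T 1 = 1`. With
`u = spOp K τ (tv k)`: `T g (u w) = u (T g w)` (on `z ⊗ v`: `T g` maps `t_x z ⊗ (τ x - 1) v` to
`t_(c g x) b g z ⊗ σ g (τ x - 1) v = t_(c g x) b g z ⊗ (τ (c g x) - 1) σ g v`; sum over `x`). So `T g` preserves `ker u` and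
`Z = range (u ^ (p-1))`, `Z ≤ ker u` (`spOp_pow`), and `dim ker u - dim Z = 1`. Choose `v` in `ker u` not in `Z`; then
`ker u = K v + Z`, so `T g v = δ g • v + z_g` with `z_g` in `Z` and a unique `δ g` in `K`; `δ g ≠ 0` because `T g` is bijective with
inverse `T g⁻¹` and preserves `Z`. `T (g h) v = T g (δ h • v + z_h) = b g (δ h) • T g v + T g z_h`, so `δ (g h) = δ g * b g (δ h)`. Apply `crossed`
(`R` is a UFD, its units are the constants, fixed by `a g`: `MvPolynomial.isUnit_iff_eq_C_of_isReduced` or similar): `δ g * b g β = l g * β`, `l g` in `Rˣ`,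
that is in `kˣ` (compose `l` with evaluation at 0, `MvPolynomial.eval 0`). If `c g = 1` then `b g = 1`, so `δ g = l g`, and if `σ g` is the scalar `a` then `T g v = a • v`,
so `δ g = a`.
-/

open TensorProduct

namespace Pool.Agent.Helper24.MA

/-- abstract linear algebra part -/
theorem line_abstract {K U X : Type} [Field K] [AddCommGroup U] [Module K U]
    [FiniteDimensional K U] [Group X] (p : ℕ) (hp : 0 < p) (u : U →ₗ[K] U) (hu : u ^ p = 0)
    (h1 : hrk p u = 1) (b : X →* (K ≃+* K)) (T : X → (U →+ U)) (hT1 : ∀ w, T 1 w = w)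
    (hTm : ∀ g h w, T (g * h) w = T g (T h w)) (hTs : ∀ g z w, T g (z • w) = b g z • T g w)
    (hTu : ∀ g w, T g (u w) = u (T g w)) :
    ∃ (v : U) (δ : X → K), (∀ g a, T g v = a • v → δ g = a) ∧ (∀ g, δ g ≠ 0) ∧
      ∀ g h, δ (g * h) = δ g * b g (δ h) := by
  classical
  have hZker : LinearMap.range (u ^ (p - 1)) ≤ LinearMap.ker u := by
    rintro w ⟨y, rfl⟩
    rw [LinearMap.mem_ker, ← Module.End.mul_apply, ← pow_succ', Nat.sub_add_cancel hp, hu]
    rfl
  have hfr : Module.finrank K (LinearMap.ker u) =
      Module.finrank K (LinearMap.range (u ^ (p - 1))) + 1 := by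
    have := Submodule.finrank_mono hZker
    unfold hrk at h1
    omega
  have hlt : LinearMap.range (u ^ (p - 1)) < LinearMap.ker u := by
    refine lt_of_le_of_ne hZker ?_
    intro h
    rw [h] at hfr
    omega
  obtain ⟨v, hvk, hvZ⟩ := Set.exists_of_ssubset hlt
  have hvk' : u v = 0 := hvk
  -- decomposition
  have hdec : ∀ w, u w = 0 → ∃ c : K, w - c • v ∈ LinearMap.range (u ^ (p - 1)) := by
    intro w hw
    have hle : LinearMap.range (u ^ (p - 1)) ⊔ Submodule.span K {v} ≤ LinearMap.ker u := by
      refine sup_le hZker ?_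
      rw [Submodule.span_le]
      rintro _ rfl
      exact hvk
    have hge : Module.finrank K (LinearMap.ker u) ≤
        Module.finrank K
          ((LinearMap.range (u ^ (p - 1)) ⊔ Submodule.span K {v} : Submodule K U)) := by
      rw [hfr]
      refine Submodule.finrank_lt_finrank_of_lt ?_
      refine lt_of_le_of_ne le_sup_left ?_
      intro h
      apply hvZ
      have : v ∈ (LinearMap.range (u ^ (p - 1)) ⊔ Submodule.span K {v} : Submodule K U) :=
        Submodule.mem_sup_right (Submodule.mem_span_singleton_self v)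
      rw [← h] at this
      exact this
    have heq := Submodule.eq_of_le_of_finrank_le hle hge
    have hwm : w ∈ (LinearMap.range (u ^ (p - 1)) ⊔ Submodule.span K {v} : Submodule K U) := by
      rw [heq]; exact hw
    obtain ⟨y, hy, z, hz, rfl⟩ := Submodule.mem_sup.1 hwm
    obtain ⟨c, rfl⟩ := Submodule.mem_span_singleton.1 hz
    exact ⟨c, by simpa using hy⟩
  have huniq : ∀ c d : K, ∀ w : U, w - c • v ∈ LinearMap.range (u ^ (p - 1)) →
      w - d • v ∈ LinearMap.range (u ^ (p - 1)) → c = d := by
    intro c d w hc hd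
    by_contra hne
    apply hvZ
    have h3 : (d - c) • v ∈ LinearMap.range (u ^ (p - 1)) := by
      have := Submodule.sub_mem _ hc hd
      have e : w - c • v - (w - d • v) = (d - c) • v := by rw [sub_smul]; abel
      rwa [e] at this
    have h4 : (d - c) ≠ 0 := sub_ne_zero.2 (fun h => hne h.symm)
    exact (Submodule.smul_mem_iff _ h4).1 h3
  have hTpow : ∀ g (n : ℕ) w, T g ((u ^ n) w) = (u ^ n) (T g w) := by
    intro g n
    induction n with
    | zero => intro w; simp
    | succ n ih =>
      intro w
      rw [pow_succ', Module.End.mul_apply, hTu, ih, Module.End.mul_apply]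
  have hTZ : ∀ g, ∀ w ∈ LinearMap.range (u ^ (p - 1)), T g w ∈ LinearMap.range (u ^ (p - 1)) := by
    rintro g _ ⟨y, rfl⟩
    exact ⟨T g y, (hTpow g _ y).symm⟩
  have hTk : ∀ g, u (T g v) = 0 := by
    intro g
    rw [← hTu, hvk', map_zero]
  choose δ hδ using fun g => hdec (T g v) (hTk g)
  have hcoc : ∀ g h, δ (g * h) = δ g * b g (δ h) := by
    intro g h
    refine huniq _ _ (T (g * h) v) (hδ _) ?_
    have e1 : T (g * h) v = b g (δ h) • T g v + T g (T h v - δ h • v) := by
      rw [hTm, map_sub, hTs]; abel
    rw [e1, mul_comm, mul_smul]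
    have e2 : b g (δ h) • T g v + T g (T h v - δ h • v) - b g (δ h) • δ g • v =
        b g (δ h) • (T g v - δ g • v) + T g (T h v - δ h • v) := by
      rw [smul_sub]; abel
    rw [e2]
    exact Submodule.add_mem _ (Submodule.smul_mem _ _ (hδ g)) (hTZ g _ (hδ h))
  have hone : δ 1 = 1 := by
    refine huniq _ _ (T 1 v) (hδ 1) ?_
    rw [hT1, one_smul, sub_self]
    exact Submodule.zero_mem _
  refine ⟨v, δ, ?_, ?_, hcoc⟩
  · intro g a ha
    refine huniq _ _ (T g v) (hδ g) ?_
    rw [ha, sub_self]
    exact Submodule.zero_mem _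
  · intro g h0
    have := hcoc g g⁻¹
    rw [mul_inv_cancel, hone, h0, zero_mul] at this
    exact one_ne_zero this

section conc

variable {k E X H : Type} [Field k] [Group E]

/-- the action on the polynomial ring -/
private noncomputable def lineA (k : Type) {E X : Type} [Field k] [Group E] [Group X]
    (c : X →* MulAut E) : X →* (MvPolynomial E k ≃ₐ[k] MvPolynomial E k) where
  toFun g := MvPolynomial.renameEquiv k (c g).toEquiv
  map_one' := by
    rw [map_one]
    exact MvPolynomial.renameEquiv_refl k
  map_mul' g h := by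
    rw [map_mul]
    exact (MvPolynomial.renameEquiv_trans k (c h).toEquiv (c g).toEquiv).symm

/-- the ring automorphisms -/
private noncomputable def lineAr (k : Type) {E X : Type} [Field k] [Group E] [Group X]
    (c : X →* MulAut E) : X →* (MvPolynomial E k ≃+* MvPolynomial E k) where
  toFun g := (lineA k c g).toRingEquiv
  map_one' := by rw [map_one]; rfl
  map_mul' g h := by rw [map_mul]; rfl

/-- the action on the field of rational functions -/
private noncomputable def lineB (k : Type) {E X : Type} [Field k] [Group E] [Group X]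
    (c : X →* MulAut E) : X →* (Kf k E ≃+* Kf k E) :=
  (IsFractionRing.ringEquivOfRingEquivHom (MvPolynomial E k) (Kf k E)).comp (lineAr k c)

private theorem lineB_algebraMap [Group X] (c : X →* MulAut E) (g : X) (s : MvPolynomial E k) :
    lineB k c g (algebraMap (MvPolynomial E k) (Kf k E) s) =
      algebraMap (MvPolynomial E k) (Kf k E) (lineAr k c g s) :=
  IsFractionRing.ringEquivOfRingEquiv_algebraMap (lineAr k c g) s

private theorem lineB_tv [Group X] (c : X →* MulAut E) (g : X) (x : E) :
    lineB k c g (tv k x) = tv k (c g x) := by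
  unfold tv
  rw [lineB_algebraMap]
  congr 1
  exact MvPolynomial.rename_X _ _

private theorem lineB_const [Group X] (c : X →* MulAut E) (g : X) (r : k) :
    lineB k c g (algebraMap k (Kf k E) r) = algebraMap k (Kf k E) r := by
  rw [IsScalarTower.algebraMap_apply k (MvPolynomial E k) (Kf k E), lineB_algebraMap]
  congr 1
  exact (lineA k c g).commutes r

private theorem lineB_smul [Group X] (c : X →* MulAut E) (g : X) (r : k) (z : Kf k E) :
    lineB k c g (r • z) = r • lineB k c g z := by
  rw [Algebra.smul_def, map_mul, lineB_const, Algebra.smul_def]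

/-- the k-linear map -/
private noncomputable def lineBl (k : Type) {E X : Type} [Field k] [Group E] [Group X]
    (c : X →* MulAut E) (g : X) : Kf k E →ₗ[k] Kf k E where
  toFun z := lineB k c g z
  map_add' := map_add _
  map_smul' r z := lineB_smul c g r z

private theorem lineT_smul [Group X] [AddCommGroup H] [Module k H] (σ : Representation k X H)
    (c : X →* MulAut E) (g : X) (z : Kf k E) (w : Kf k E ⊗[k] H) :
    TensorProduct.map (lineBl k c g) (σ g) (z • w) =
      lineB k c g z • TensorProduct.map (lineBl k c g) (σ g) w := by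
  induction w using TensorProduct.induction_on with
  | zero => simp
  | tmul y v =>
    rw [TensorProduct.smul_tmul', TensorProduct.map_tmul, TensorProduct.map_tmul,
      TensorProduct.smul_tmul']
    congr 1
    exact map_mul (lineB k c g) z y
  | add a b ha hb => rw [smul_add, map_add, ha, hb, map_add, smul_add]

private theorem lineT_mul [Group X] [AddCommGroup H] [Module k H] (σ : Representation k X H)
    (c : X →* MulAut E) (g h : X) (w : Kf k E ⊗[k] H) :
    TensorProduct.map (lineBl k c (g * h)) (σ (g * h)) w =
      TensorProduct.map (lineBl k c g) (σ g) (TensorProduct.map (lineBl k c h) (σ h) w) := by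
  induction w using TensorProduct.induction_on with
  | zero => simp
  | tmul y v =>
    rw [TensorProduct.map_tmul, TensorProduct.map_tmul, TensorProduct.map_tmul, map_mul]
    congr 1
    change lineB k c (g * h) y = lineB k c g (lineB k c h y)
    rw [map_mul]; rfl
  | add a b ha hb => rw [map_add, ha, hb, map_add, map_add]

private theorem lineT_one [Group X] [AddCommGroup H] [Module k H] (σ : Representation k X H)
    (c : X →* MulAut E) (w : Kf k E ⊗[k] H) :
    TensorProduct.map (lineBl k c (1 : X)) (σ 1) w = w := by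
  induction w using TensorProduct.induction_on with
  | zero => simp
  | tmul y v =>
    rw [TensorProduct.map_tmul, map_one]
    congr 1
    change lineB k c 1 y = y
    rw [map_one]; rfl
  | add a b ha hb => rw [map_add, ha, hb]

private theorem lineT_op [Fintype E] [Group X] [AddCommGroup H] [Module k H]
    (τ : Representation k E H) (σ : Representation k X H)
    (c : X →* MulAut E) (hc : ∀ g x, σ g ∘ₗ τ x = τ (c g x) ∘ₗ σ g) (g : X)
    (w : Kf k E ⊗[k] H) :
    TensorProduct.map (lineBl k c g) (σ g) (spOp (Kf k E) τ (tv k) w) =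
      spOp (Kf k E) τ (tv k) (TensorProduct.map (lineBl k c g) (σ g) w) := by
  induction w using TensorProduct.induction_on with
  | zero => simp
  | tmul y v =>
    have hsp : ∀ (y : Kf k E) (v : H), spOp (Kf k E) τ (tv k) (y ⊗ₜ[k] v) =
        ∑ x : E, tv k x • (y ⊗ₜ[k] (τ x v - v)) := by
      intro y v
      unfold spOp
      rw [LinearMap.sum_apply]
      refine Finset.sum_congr rfl fun x _ => ?_
      rw [LinearMap.smul_apply, LinearMap.baseChange_tmul]
      rfl
    rw [hsp, map_sum, TensorProduct.map_tmul, hsp]
    rw [← Equiv.sum_comp (c g).toEquiv (fun x => tv k x • (lineBl k c g y ⊗ₜ[k]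
      (τ x (σ g v) - σ g v)))]
    refine Finset.sum_congr rfl fun x _ => ?_
    rw [lineT_smul, lineB_tv, TensorProduct.map_tmul, map_sub]
    have := LinearMap.congr_fun (hc g x) v
    rw [LinearMap.comp_apply, LinearMap.comp_apply] at this
    rw [this]
    rfl
  | add a b ha hb => rw [map_add, map_add, ha, hb, map_add, map_add]


end conc

theorem exists_linear_of_gr (p : ℕ) [Fact p.Prime] {k E X H : Type} [Field k] [CharP k p]
    [Group E] [Fintype E] (hE : ElAb p E) [Group X] [Finite X] [AddCommGroup H] [Module k H]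
    [FiniteDimensional k H] (τ : Representation k E H) (σ : Representation k X H)
    (c : X →* MulAut E) (hc : ∀ g x, σ g ∘ₗ τ x = τ (c g x) ∘ₗ σ g) (h1 : gr p τ = 1) :
    ∃ l : X →* kˣ, ∀ g : X, c g = 1 → ∀ a : k, (∀ v, σ g v = a • v) → ((l g : kˣ) : k) = a := by
  classical
  obtain ⟨v, δ, hval, hne, hcoc⟩ := line_abstract (U := Kf k E ⊗[k] H) p
    (Fact.out (p := p.Prime)).pos
    (spOp (Kf k E) τ (tv k)) (spOp_pow p hE τ (tv k)) h1 (lineB k c)
    (fun g => (TensorProduct.map (lineBl k c g) (σ g)).toAddMonoidHom)
    (fun w => lineT_one σ c w) (fun g h w => lineT_mul σ c g h w)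
    (fun g z w => lineT_smul σ c g z w) (fun g w => lineT_op τ σ c hc g w)
  have hu : ∀ (g : X) (w : (MvPolynomial E k)ˣ), lineAr k c g (w : MvPolynomial E k) = w := by
    intro g w
    obtain ⟨r, _, hr⟩ := MvPolynomial.isUnit_iff_eq_C_of_isReduced.1 w.isUnit
    rw [hr]
    exact (lineA k c g).commutes r
  obtain ⟨l, β, hβ, hl⟩ := crossed (S := MvPolynomial E k) (K := Kf k E) (lineAr k c) (lineB k c)
    (fun g s => lineB_algebraMap c g s) hu δ hne hcoc
  let ev : (MvPolynomial E k) →+* k := MvPolynomial.eval (fun _ => (0 : k))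
  refine ⟨(Units.map (ev : MvPolynomial E k →* k)).comp l, ?_⟩
  intro g hg a ha
  have hB1 : ∀ z : Kf k E, lineB k c g z = z := by
    intro z
    have e : lineB k c g = 1 := by
      have e1 : lineAr k c g = 1 := by
        refine RingEquiv.ext fun s => ?_
        change MvPolynomial.rename (c g) s = s
        rw [hg]
        exact MvPolynomial.rename_id_apply s
      unfold lineB
      rw [MonoidHom.comp_apply, e1, map_one]
    rw [e]; rfl
  have hδa : δ g = algebraMap k (Kf k E) a := by
    refine hval g _ ?_
    change TensorProduct.map (lineBl k c g) (σ g) v = _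
    have e : ∀ w : Kf k E ⊗[k] H, TensorProduct.map (lineBl k c g) (σ g) w = a • w := by
      intro w
      induction w using TensorProduct.induction_on with
      | zero => simp
      | tmul y v =>
        rw [TensorProduct.map_tmul, ha, TensorProduct.tmul_smul]
        congr 2
        exact hB1 y
      | add a b ha hb => rw [map_add, ha, hb, smul_add]
    rw [e, algebraMap_smul]
  have h2 := hl g
  rw [hB1] at h2
  have h3 : δ g = algebraMap (MvPolynomial E k) (Kf k E) ((l g : (MvPolynomial E k)ˣ) :
      MvPolynomial E k) := mul_right_cancel₀ hβ h2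
  rw [hδa, IsScalarTower.algebraMap_apply k (MvPolynomial E k) (Kf k E)] at h3
  have h4 := IsFractionRing.injective (MvPolynomial E k) (Kf k E) h3
  change ev ((l g : (MvPolynomial E k)ˣ) : MvPolynomial E k) = a
  rw [← h4]
  change MvPolynomial.eval (fun _ => (0 : k)) (MvPolynomial.C a) = a
  exact MvPolynomial.eval_C a

end Pool.Agent.Helper24.MA
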